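import Pool.Agent.Lib.MP_c7af3c_ag.ELL.Model
import Pool.Agent.Lib.MP_c7af3c_ag.GEN.H38.Sproj

/-!
# MP_c7af3c_ag, project ELL: module SECT
-/

set_option autoImplicit false

namespace Pool.Agent.Lib.MP_c7af3c_ag.ELL.H78

open AlgebraicGeometry CategoryTheory CategoryTheory.Limits Pool.Agent.Ell
open Pool.Agent.Gen Pool.Agent.Gen.H38 HomogeneousLocalization
open MvPolynomial (homogeneousSubmodule)

section

attribute [local instance] MvPolynomial.gradedAlgebra

/-- base change of a point in a chart -/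
theorem key {A B σ τ : Type} [CommRing A] [SetLike σ A] [AddSubgroupClass σ A]
    [CommRing B] [SetLike τ B] [AddSubgroupClass τ B] {𝒜 : ℕ → σ} {ℬ : ℕ → τ}
    [GradedRing 𝒜] [GradedRing ℬ] (f : GradedRingHom 𝒜 ℬ)
    (hf : HomogeneousIdeal.irrelevant ℬ ≤ (HomogeneousIdeal.irrelevant 𝒜).map f)
    {i : ℕ} (hi : 0 < i) (s : A) (t : B) (hst : f s = t) (hs : s ∈ 𝒜 i) (ht : t ∈ ℬ i)
    {C : Type} [CommRing C] (φ : Away ℬ t →+* C) (ψ : Away 𝒜 s →+* C)
    (h : ∀ (d : ℕ) (x : A) (hx : x ∈ 𝒜 (d • i)) (hx' : f x ∈ ℬ (d • i)),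
      φ (Away.mk ℬ ht d (f x) hx') = ψ (Away.mk 𝒜 hs d x hx)) :
    Spec.map (CommRingCat.ofHom φ) ≫ Proj.awayι ℬ t ht hi ≫ Proj.map f hf =
      Spec.map (CommRingCat.ofHom ψ) ≫ Proj.awayι 𝒜 s hs hi := by
  subst hst
  have h1 := Proj.awayι_comp_map f hf hi s hs
  have h2 : Proj.awayι ℬ (f s) ht hi ≫ Proj.map f hf =
      Spec.map (CommRingCat.ofHom (Away.map f s)) ≫ Proj.awayι 𝒜 s hs hi := h1
  rw [h2, ← Category.assoc, ← Spec.map_comp, ← CommRingCat.ofHom_comp]
  congr 3
  refine RingHom.ext fun x => ?_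
  obtain ⟨d, x, hx, rfl⟩ := x.mk_surjective _ hs
  rw [RingHom.comp_apply, Away.map_mk]
  exact h d x hx _

variable (A : Type) [CommRing A] (n : ℕ) (j : Fin (n + 1))

theorem Xm (l : Fin (n + 1)) : (MvPolynomial.X l : MvPolynomial (Fin (n + 1)) A) ∈
    homogeneousSubmodule (Fin (n + 1)) A 1 :=
  (MvPolynomial.mem_homogeneousSubmodule 1 _).mpr (MvPolynomial.isHomogeneous_X A l)

theorem Xm' (l : Fin (n + 1)) : (MvPolynomial.X l : MvPolynomial (Fin (n + 1)) A) ∈
    homogeneousSubmodule (Fin (n + 1)) A (1 • 1) := by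
  rw [smul_eq_mul, mul_one]
  exact Xm A n l

variable {A} {C : Type} [CommRing C] (f : A →+* C) (z : Fin (n + 1) → C)

/-- evaluation on the localization -/
noncomputable def evL (hz : z j = 1) :
    Localization (Submonoid.powers (MvPolynomial.X j : MvPolynomial (Fin (n + 1)) A)) →+* C :=
  IsLocalization.Away.lift (MvPolynomial.X j : MvPolynomial (Fin (n + 1)) A)
    (g := MvPolynomial.eval₂Hom f z) (by
      change IsUnit (MvPolynomial.eval₂Hom f z (MvPolynomial.X j))
      rw [MvPolynomial.eval₂Hom_X', hz]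
      exact isUnit_one)

theorem evL_algebraMap (hz : z j = 1) (F : MvPolynomial (Fin (n + 1)) A) :
    evL n j f z hz (algebraMap _ _ F) = MvPolynomial.eval₂Hom f z F :=
  IsLocalization.Away.lift_eq (MvPolynomial.X j : MvPolynomial (Fin (n + 1)) A)
    (g := MvPolynomial.eval₂Hom f z) _ F

/-- evaluation on the degree zero part -/
noncomputable def evA (hz : z j = 1) :
    Away (homogeneousSubmodule (Fin (n + 1)) A)
      (MvPolynomial.X j : MvPolynomial (Fin (n + 1)) A) →+* C :=
  (evL n j f z hz).comp (algebraMap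
    (Away (homogeneousSubmodule (Fin (n + 1)) A)
      (MvPolynomial.X j : MvPolynomial (Fin (n + 1)) A))
    (Localization (Submonoid.powers (MvPolynomial.X j : MvPolynomial (Fin (n + 1)) A))))

theorem evA_cst (hz : z j = 1) (a : A) :
    evA n j f z hz (fromZeroRingHom (homogeneousSubmodule (Fin (n + 1)) A)
      (Submonoid.powers (MvPolynomial.X j : MvPolynomial (Fin (n + 1)) A))
      (algebraMap A (homogeneousSubmodule (Fin (n + 1)) A 0) a)) = f a := by
  have h0 : (fromZeroRingHom (homogeneousSubmodule (Fin (n + 1)) A)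
      (Submonoid.powers (MvPolynomial.X j : MvPolynomial (Fin (n + 1)) A))
      (algebraMap A (homogeneousSubmodule (Fin (n + 1)) A 0) a)).val =
      algebraMap (MvPolynomial (Fin (n + 1)) A)
        (Localization (Submonoid.powers (MvPolynomial.X j : MvPolynomial (Fin (n + 1)) A)))
        (MvPolynomial.C a) := Localization.mk_one_eq_algebraMap (MvPolynomial.C a)
  have h1 := congrArg (evL n j f z hz) h0
  rw [evL_algebraMap, MvPolynomial.eval₂Hom_C] at h1
  exact h1

theorem evA_mk (hz : z j = 1) (d : ℕ) (F : MvPolynomial (Fin (n + 1)) A)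
    (hF : F ∈ homogeneousSubmodule (Fin (n + 1)) A (d • 1)) :
    evA n j f z hz (Away.mk (homogeneousSubmodule (Fin (n + 1)) A) (Xm A n j) d F hF) =
      MvPolynomial.eval₂Hom f z F := by
  have h1 : (Away.mk (homogeneousSubmodule (Fin (n + 1)) A) (Xm A n j) d F hF).val *
      algebraMap (MvPolynomial (Fin (n + 1)) A)
      (Localization (Submonoid.powers (MvPolynomial.X j : MvPolynomial (Fin (n + 1)) A)))
      (MvPolynomial.X j ^ d) = algebraMap (MvPolynomial (Fin (n + 1)) A)
      (Localization (Submonoid.powers (MvPolynomial.X j : MvPolynomial (Fin (n + 1)) A)))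
      F := by
    rw [Away.val_mk, ← Localization.mk_one_eq_algebraMap, ← Localization.mk_one_eq_algebraMap,
      Localization.mk_mul, Localization.mk_eq_mk_iff, Localization.r_iff_exists]
    refine ⟨1, ?_⟩
    simp [mul_comm]
  have h2 := congrArg (evL n j f z hz) h1
  rw [map_mul, evL_algebraMap, evL_algebraMap, map_pow, MvPolynomial.eval₂Hom_X', hz, one_pow,
    mul_one] at h2
  exact h2

/-- the section -/
noncomputable def sec (z : Fin (n + 1) → A) (hz : z j = 1) :
    Spec (CommRingCat.of A) ⟶ PP A n :=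
  Spec.map (CommRingCat.ofHom (evA n j (RingHom.id A) z hz)) ≫
    Proj.awayι (homogeneousSubmodule (Fin (n + 1)) A) (MvPolynomial.X j) (Xm A n j) one_pos

theorem sec_str (z : Fin (n + 1) → A) (hz : z j = 1) : sec n j z hz ≫ strP A n = 𝟙 _ := by
  have h1 : Proj.awayι (homogeneousSubmodule (Fin (n + 1)) A) (MvPolynomial.X j) (Xm A n j)
      one_pos ≫ strP A n = Spec.map (CommRingCat.ofHom ((fromZeroRingHom
        (homogeneousSubmodule (Fin (n + 1)) A)
        (Submonoid.powers (MvPolynomial.X j : MvPolynomial (Fin (n + 1)) A))).comp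
        (algebraMap A (homogeneousSubmodule (Fin (n + 1)) A 0)))) := by
    unfold strP
    rw [← Category.assoc, Proj.awayι_toSpecZero (homogeneousSubmodule (Fin (n + 1)) A)
      (MvPolynomial.X j) (Xm A n j) one_pos, ← Spec.map_comp]
    rfl
  unfold sec
  rw [Category.assoc, h1, ← Spec.map_comp, ← CommRingCat.ofHom_comp]
  have h2 : (evA n j (RingHom.id A) z hz).comp ((fromZeroRingHom
        (homogeneousSubmodule (Fin (n + 1)) A)
        (Submonoid.powers (MvPolynomial.X j : MvPolynomial (Fin (n + 1)) A))).comp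
        (algebraMap A (homogeneousSubmodule (Fin (n + 1)) A 0))) = RingHom.id A :=
    RingHom.ext fun a => evA_cst n j (RingHom.id A) z hz a
  rw [h2]
  exact Spec.map_id _

theorem sec_base {B : Type} [CommRing B] (g : A →+* B) (z : Fin (n + 1) → A) (hz : z j = 1)
    (hz' : g (z j) = 1) :
    Spec.map (CommRingCat.ofHom g) ≫ sec n j z hz =
      sec n j (fun l => g (z l)) hz' ≫ prP g n := by
  unfold sec prP
  rw [Category.assoc, key (gmap g n) (gmap_irr g n) one_pos (MvPolynomial.X j)
    (MvPolynomial.X j) (MvPolynomial.map_X g j) (Xm A n j) (Xm B n j)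
    (evA n j (RingHom.id B) (fun l => g (z l)) hz') (g.comp (evA n j (RingHom.id A) z hz)) ?_]
  · rw [CommRingCat.ofHom_comp, Spec.map_comp, Category.assoc]
  · intro d x hx hx'
    rw [RingHom.comp_apply, evA_mk, evA_mk]
    have h1 : gmap g n x = MvPolynomial.map g x := rfl
    rw [h1]
    simp only [MvPolynomial.coe_eval₂Hom]
    rw [MvPolynomial.eval₂_map, RingHom.id_comp, MvPolynomial.eval₂_comp_left, RingHom.comp_id]
    rfl

theorem sec_coord (k : Type) [Field k] (n : ℕ) (j : Fin (n + 1)) (z : Fin (n + 1) → k)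
    (hz : z j = 1) : ∃ h : ⊤ ≤ sec n j z hz ⁻¹ᵁ DP k n j,
      Gen.pcoord k n j (sec n j z hz) h = z := by
  have h0 : (⊤ : (Spec (CommRingCat.of (Away (homogeneousSubmodule (Fin (n + 1)) k)
      (MvPolynomial.X j : MvPolynomial (Fin (n + 1)) k)))).Opens) ≤
      Proj.awayι (homogeneousSubmodule (Fin (n + 1)) k) (MvPolynomial.X j) (Xm k n j)
        one_pos ⁻¹ᵁ
        Proj.basicOpen (homogeneousSubmodule (Fin (n + 1)) k) (MvPolynomial.X j) := by
    rw [← Proj.opensRange_awayι (homogeneousSubmodule (Fin (n + 1)) k) (MvPolynomial.X j)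
      (Xm k n j) one_pos]
    simp
  have hh : ⊤ ≤ sec n j z hz ⁻¹ᵁ DP k n j := by
    intro x _
    exact h0 (TopologicalSpace.Opens.mem_top _)
  refine ⟨hh, funext fun l => ?_⟩
  have h3 := kval_awayToSection (homogeneousSubmodule (Fin (n + 1)) k) (MvPolynomial.X j)
    (Xm k n j) one_pos (CommRingCat.ofHom (evA n j (RingHom.id k) z hz)) hh (frX k n j l)
  refine Eq.trans ?_ (h3.trans ?_)
  · rfl
  · change evA n j (RingHom.id k) z hz (frX k n j l) = _
    unfold frX
    refine (evA_mk n j (RingHom.id k) z hz 1 (MvPolynomial.X l) (Xm' k n l)).trans ?_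
    rw [MvPolynomial.eval₂Hom_X']

theorem sect : SectStatement := by
  intro k _ n R j v hv
  have hz' : R.subtype (v j) = 1 := by rw [hv, map_one]
  obtain ⟨h, hh⟩ := sec_coord k n j (fun l => R.subtype (v l)) hz'
  exact ⟨sec n j v hv, sec n j (fun l => R.subtype (v l)) hz', h, sec_str n j v hv,
    sec_str n j _ hz', sec_base n j R.subtype v hv hz', hh⟩

end

end Pool.Agent.Lib.MP_c7af3c_ag.ELL.H78
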